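import Mathlib

/-! Module G of THEOREM DET (helper76, MP_0edd48_al): the group theory lemma for `n = 3`. -/

open scoped commutatorElement

namespace H78.DET

variable {G : Type*} [Group G]

/-- In `⟨e,f,g⟩`: the six shift relations give one central commutator of order at most 2. -/
theorem kappa_step {e f g : G}
    (h1 : Commute e (f * g)) (h2 : Commute e (g * f))
    (h3 : Commute g (e * f)) (h4 : Commute g (f * e))
    (h5 : Commute f (g⁻¹ * e)) (h6 : Commute f (e * g⁻¹)) :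
    ∃ k : G, k * k = 1 ∧ Commute k e ∧ Commute k f ∧ Commute k g ∧
      f * e = k * (e * f) ∧ f * g = k * (g * f) ∧ g * e = k * (e * g) := by
  -- the conjugation identities
  have c1 : f⁻¹ * e * f = g * e * g⁻¹ := by
    have := h1.eq
    calc f⁻¹ * e * f = f⁻¹ * (e * (f * g)) * g⁻¹ := by group
      _ = f⁻¹ * (f * g * e) * g⁻¹ := by rw [this]
      _ = g * e * g⁻¹ := by group
  have c2 : f * e * f⁻¹ = g⁻¹ * e * g := by
    have := h2.eq
    calc f * e * f⁻¹ = g⁻¹ * (g * f * e) * f⁻¹ := by group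
      _ = g⁻¹ * (e * (g * f)) * f⁻¹ := by rw [this]
      _ = g⁻¹ * e * g := by group
  have c3 : e⁻¹ * g * e = f * g * f⁻¹ := by
    have := h3.eq
    calc e⁻¹ * g * e = e⁻¹ * (g * (e * f)) * f⁻¹ := by group
      _ = e⁻¹ * (e * f * g) * f⁻¹ := by rw [this]
      _ = f * g * f⁻¹ := by group
  have c4 : f⁻¹ * g * f = e * g * e⁻¹ := by
    have := h4.eq
    calc f⁻¹ * g * f = f⁻¹ * (g * (f * e)) * e⁻¹ := by group
      _ = f⁻¹ * (f * e * g) * e⁻¹ := by rw [this]
      _ = e * g * e⁻¹ := by group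
  have c5 : g * f * g⁻¹ = e * f * e⁻¹ := by
    have := h5.eq
    calc g * f * g⁻¹ = g * (f * (g⁻¹ * e)) * e⁻¹ := by group
      _ = g * (g⁻¹ * e * f) * e⁻¹ := by rw [this]
      _ = e * f * e⁻¹ := by group
  have c6 : e⁻¹ * f * e = g⁻¹ * f * g := by
    have := h6.eq
    calc e⁻¹ * f * e = e⁻¹ * (f * (e * g⁻¹)) * g := by group
      _ = e⁻¹ * (e * g⁻¹ * f) * g := by rw [this]
      _ = g⁻¹ * f * g := by group
  -- k = [f,e]
  obtain ⟨k, hk⟩ : ∃ k : G, k = f * e * f⁻¹ * e⁻¹ := ⟨_, rfl⟩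
  have k1 : k = g⁻¹ * e * g * e⁻¹ := by rw [hk, c2]
  have k2 : k = f * g * f⁻¹ * g⁻¹ := by
    -- k⁻¹ = [e,f] = [g,f]
    have : k⁻¹ = g * f * g⁻¹ * f⁻¹ := by rw [c5, hk]; group
    rw [← inv_inv k, this]; group
  -- e commutes with k
  have ke : Commute k e := by
    have : k = (f * g) * (g * f)⁻¹ := by rw [k2]; group
    rw [this]
    exact ((h1.symm).mul_left (h2.symm.inv_left))
  have kg : Commute k g := by
    have : k = (f * e) * (e * f)⁻¹ := by rw [hk]; group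
    rw [this]
    exact ((h4.symm).mul_left (h3.symm.inv_left))
  have kf : Commute k f := by
    have : k = (g⁻¹ * e) * (e * g⁻¹)⁻¹ := by rw [k1]; group
    rw [this]
    exact ((h5.symm).mul_left (h6.symm.inv_left))
  -- [f⁻¹,g] = [e,g] and [f⁻¹,e] = [g,e]
  have k3 : k⁻¹ = e * g * e⁻¹ * g⁻¹ := by
    have : f⁻¹ * k⁻¹ * f = e * g * e⁻¹ * g⁻¹ := by rw [← c4, k2]; group
    rw [← this]
    have h := kf.inv_left.eq
    calc k⁻¹ = f⁻¹ * (f * k⁻¹) := by group
      _ = f⁻¹ * (k⁻¹ * f) := by rw [h]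
      _ = f⁻¹ * k⁻¹ * f := by group
  have k4 : k⁻¹ = g * e * g⁻¹ * e⁻¹ := by
    have : f⁻¹ * k⁻¹ * f = g * e * g⁻¹ * e⁻¹ := by rw [← c1, hk]; group
    rw [← this]
    have h := kf.inv_left.eq
    calc k⁻¹ = f⁻¹ * (f * k⁻¹) := by group
      _ = f⁻¹ * (k⁻¹ * f) := by rw [h]
      _ = f⁻¹ * k⁻¹ * f := by group
  have kk : k * k = 1 := by
    have h : k⁻¹ = k := by
      rw [k4]
      have : k = (e * g * e⁻¹ * g⁻¹)⁻¹ := by rw [← k3, inv_inv]
      rw [this]; group
    calc k * k = k⁻¹ * k := by rw [h]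
      _ = 1 := by group
  refine ⟨k, kk, ke, kf, kg, ?_, ?_, ?_⟩
  · rw [hk]; group
  · rw [k2]; group
  · have : k = k⁻¹ := by
      calc k = k * (k * k⁻¹) := by group
        _ = (k * k) * k⁻¹ := by group
        _ = k⁻¹ := by rw [kk, one_mul]
    rw [this, k4]; group

/-- **Group theory lemma.**  If `a ⟂ [b,c]`, `b ⟂ [a,c]`, `c ⟂ [a,b]` and `xy ⟂ yx` for the
three pairs, then the three commutators commute pairwise. -/
theorem comm_pairwise {a b c : G}
    (ha : Commute a ⁅b, c⁆) (hb : Commute b ⁅a, c⁆) (hc : Commute c ⁅a, b⁆)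
    (hab : Commute (a * b) (b * a)) (hac : Commute (a * c) (c * a))
    (hbc : Commute (b * c) (c * b)) :
    Commute ⁅b, c⁆ ⁅a, c⁆ ∧ Commute ⁅b, c⁆ ⁅a, b⁆ ∧ Commute ⁅a, c⁆ ⁅a, b⁆ := by
  obtain ⟨e, he⟩ : ∃ e : G, e = ⁅b, c⁆ := ⟨_, rfl⟩
  obtain ⟨f, hf⟩ : ∃ f : G, f = ⁅a, c⁆ := ⟨_, rfl⟩
  obtain ⟨g, hg⟩ : ∃ g : G, g = ⁅a, b⁆ := ⟨_, rfl⟩
  rw [← he] at ha ⊢
  rw [← hf] at hb ⊢
  rw [← hg] at hc ⊢
  have ee : e = (b * c) * (c * b)⁻¹ := by rw [he, commutatorElement_def]; group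
  have ff : f = (a * c) * (c * a)⁻¹ := by rw [hf, commutatorElement_def]; group
  have gg : g = (a * b) * (b * a)⁻¹ := by rw [hg, commutatorElement_def]; group
  have e1 : Commute e (b * c) := by
    rw [ee]; exact (Commute.refl _).mul_left hbc.symm.inv_left
  have e2 : Commute e (c * b) := by
    rw [ee]; exact hbc.mul_left (Commute.refl _).inv_left
  have f1 : Commute f (a * c) := by
    rw [ff]; exact (Commute.refl _).mul_left hac.symm.inv_left
  have f2 : Commute f (c * a) := by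
    rw [ff]; exact hac.mul_left (Commute.refl _).inv_left
  have g1 : Commute g (a * b) := by
    rw [gg]; exact (Commute.refl _).mul_left hab.symm.inv_left
  have g2 : Commute g (b * a) := by
    rw [gg]; exact hab.mul_left (Commute.refl _).inv_left
  -- products
  have pe : b * c = e * (c * b) := by rw [ee]; group
  have pf : a * c = f * (c * a) := by rw [ff]; group
  have pg : a * b = g * (b * a) := by rw [gg]; group
  have ab : a * b * a⁻¹ = g * b := by rw [pg]; group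
  have ac : a * c * a⁻¹ = f * c := by rw [pf]; group
  have bc : b * c * b⁻¹ = e * c := by rw [pe]; group
  have ca : c * a * c⁻¹ = f⁻¹ * a := by
    calc c * a * c⁻¹ = f⁻¹ * (f * (c * a)) * c⁻¹ := by group
      _ = f⁻¹ * (a * c) * c⁻¹ := by rw [← pf]
      _ = f⁻¹ * a := by group
  have cb : c * b * c⁻¹ = e⁻¹ * b := by
    calc c * b * c⁻¹ = e⁻¹ * (e * (c * b)) * c⁻¹ := by group
      _ = e⁻¹ * (b * c) * c⁻¹ := by rw [← pe]
      _ = e⁻¹ * b := by group
  have ba : b * a * b⁻¹ = g⁻¹ * a := by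
    calc b * a * b⁻¹ = g⁻¹ * (g * (b * a)) * b⁻¹ := by group
      _ = g⁻¹ * (a * b) * b⁻¹ := by rw [← pg]
      _ = g⁻¹ * a := by group
  -- six shifts
  have s1 : Commute e (g * f) := by
    have h : Commute e (a * (b * c) * a⁻¹) := (ha.symm.mul_right e1).mul_right ha.symm.inv_right
    have h' : a * (b * c) * a⁻¹ = (g * f) * (b * c) := by
      calc a * (b * c) * a⁻¹ = (a * b * a⁻¹) * (a * c * a⁻¹) := by group
        _ = (g * b) * (f * c) := by rw [ab, ac]
        _ = g * (b * f) * c := by group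
        _ = g * (f * b) * c := by rw [hb.eq]
        _ = (g * f) * (b * c) := by group
    rw [h'] at h
    have := h.mul_right e1.inv_right
    simpa [mul_assoc] using this
  have s2 : Commute e (f * g) := by
    have h : Commute e (a * (c * b) * a⁻¹) := (ha.symm.mul_right e2).mul_right ha.symm.inv_right
    have h' : a * (c * b) * a⁻¹ = (f * g) * (c * b) := by
      calc a * (c * b) * a⁻¹ = (a * c * a⁻¹) * (a * b * a⁻¹) := by group
        _ = (f * c) * (g * b) := by rw [ab, ac]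
        _ = f * (c * g) * b := by group
        _ = f * (g * c) * b := by rw [hc.eq]
        _ = (f * g) * (c * b) := by group
    rw [h'] at h
    have := h.mul_right e2.inv_right
    simpa [mul_assoc] using this
  have s3 : Commute g (f⁻¹ * e⁻¹) := by
    have h : Commute g (c * (a * b) * c⁻¹) := (hc.symm.mul_right g1).mul_right hc.symm.inv_right
    have h' : c * (a * b) * c⁻¹ = (f⁻¹ * e⁻¹) * (a * b) := by
      calc c * (a * b) * c⁻¹ = (c * a * c⁻¹) * (c * b * c⁻¹) := by group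
        _ = (f⁻¹ * a) * (e⁻¹ * b) := by rw [ca, cb]
        _ = f⁻¹ * (a * e⁻¹) * b := by group
        _ = f⁻¹ * (e⁻¹ * a) * b := by rw [ha.inv_right.eq]
        _ = (f⁻¹ * e⁻¹) * (a * b) := by group
    rw [h'] at h
    have := h.mul_right g1.inv_right
    simpa [mul_assoc] using this
  have s4 : Commute g (e⁻¹ * f⁻¹) := by
    have h : Commute g (c * (b * a) * c⁻¹) := (hc.symm.mul_right g2).mul_right hc.symm.inv_right
    have h' : c * (b * a) * c⁻¹ = (e⁻¹ * f⁻¹) * (b * a) := by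
      calc c * (b * a) * c⁻¹ = (c * b * c⁻¹) * (c * a * c⁻¹) := by group
        _ = (e⁻¹ * b) * (f⁻¹ * a) := by rw [ca, cb]
        _ = e⁻¹ * (b * f⁻¹) * a := by group
        _ = e⁻¹ * (f⁻¹ * b) * a := by rw [hb.inv_right.eq]
        _ = (e⁻¹ * f⁻¹) * (b * a) := by group
    rw [h'] at h
    have := h.mul_right g2.inv_right
    simpa [mul_assoc] using this
  have s5 : Commute f (g⁻¹ * e) := by
    have h : Commute f (b * (a * c) * b⁻¹) := (hb.symm.mul_right f1).mul_right hb.symm.inv_right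
    have h' : b * (a * c) * b⁻¹ = (g⁻¹ * e) * (a * c) := by
      calc b * (a * c) * b⁻¹ = (b * a * b⁻¹) * (b * c * b⁻¹) := by group
        _ = (g⁻¹ * a) * (e * c) := by rw [ba, bc]
        _ = g⁻¹ * (a * e) * c := by group
        _ = g⁻¹ * (e * a) * c := by rw [ha.eq]
        _ = (g⁻¹ * e) * (a * c) := by group
    rw [h'] at h
    have := h.mul_right f1.inv_right
    simpa [mul_assoc] using this
  have s6 : Commute f (e * g⁻¹) := by
    have h : Commute f (b * (c * a) * b⁻¹) := (hb.symm.mul_right f2).mul_right hb.symm.inv_right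
    have h' : b * (c * a) * b⁻¹ = (e * g⁻¹) * (c * a) := by
      calc b * (c * a) * b⁻¹ = (b * c * b⁻¹) * (b * a * b⁻¹) := by group
        _ = (e * c) * (g⁻¹ * a) := by rw [ba, bc]
        _ = e * (c * g⁻¹) * a := by group
        _ = e * (g⁻¹ * c) * a := by rw [hc.inv_right.eq]
        _ = (e * g⁻¹) * (c * a) := by group
    rw [h'] at h
    have := h.mul_right f2.inv_right
    simpa [mul_assoc] using this
  have s3' : Commute g (e * f) := by
    have := s3.inv_right; simpa [mul_inv_rev] using this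
  have s4' : Commute g (f * e) := by
    have := s4.inv_right; simpa [mul_inv_rev] using this
  obtain ⟨k, kk, ke, kf, kg, r1, r2, r3⟩ := kappa_step s2 s1 s3' s4' s5 s6
  -- Hall–Witt
  have hw : ⁅b * a * b⁻¹, ⁅c, b⁆⁆ * ⁅c * b * c⁻¹, ⁅a, c⁆⁆ * ⁅a * c * a⁻¹, ⁅b, a⁆⁆ = 1 := by
    simp only [commutatorElement_def]; group
  have hcb : ⁅c, b⁆ = e⁻¹ := by rw [he, commutatorElement_def, commutatorElement_def]; group
  have hba : ⁅b, a⁆ = g⁻¹ := by rw [hg, commutatorElement_def, commutatorElement_def]; group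
  rw [ba, cb, ac, hcb, hba, ← hf] at hw
  have t1 : ⁅g⁻¹ * a, e⁻¹⁆ = k := by
    have h : ⁅g⁻¹ * a, e⁻¹⁆ = g⁻¹ * e⁻¹ * g * e := by
      rw [commutatorElement_def]
      calc g⁻¹ * a * e⁻¹ * (g⁻¹ * a)⁻¹ * e⁻¹⁻¹ = g⁻¹ * (a * e⁻¹) * a⁻¹ * g * e := by group
        _ = g⁻¹ * (e⁻¹ * a) * a⁻¹ * g * e := by rw [ha.inv_right.eq]
        _ = g⁻¹ * e⁻¹ * g * e := by group
    rw [h]
    calc g⁻¹ * e⁻¹ * g * e = (e * g)⁻¹ * (g * e) := by group
      _ = (e * g)⁻¹ * (k * (e * g)) := by rw [r3]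
      _ = (e * g)⁻¹ * ((e * g) * k) := by rw [(ke.mul_right kg).eq]
      _ = k := by group
  have t2 : ⁅e⁻¹ * b, f⁆ = k := by
    have h : ⁅e⁻¹ * b, f⁆ = e⁻¹ * f * e * f⁻¹ := by
      rw [commutatorElement_def]
      calc e⁻¹ * b * f * (e⁻¹ * b)⁻¹ * f⁻¹ = e⁻¹ * (b * f) * b⁻¹ * e * f⁻¹ := by group
        _ = e⁻¹ * (f * b) * b⁻¹ * e * f⁻¹ := by rw [hb.eq]
        _ = e⁻¹ * f * e * f⁻¹ := by group
    rw [h]
    calc e⁻¹ * f * e * f⁻¹ = e⁻¹ * (f * e) * f⁻¹ := by group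
      _ = e⁻¹ * (k * (e * f)) * f⁻¹ := by rw [r1]
      _ = e⁻¹ * (k * e) := by group
      _ = e⁻¹ * (e * k) := by rw [ke.eq]
      _ = k := by group
  have t3 : ⁅f * c, g⁻¹⁆ = k := by
    have h : ⁅f * c, g⁻¹⁆ = f * g⁻¹ * f⁻¹ * g := by
      rw [commutatorElement_def]
      calc f * c * g⁻¹ * (f * c)⁻¹ * g⁻¹⁻¹ = f * (c * g⁻¹) * c⁻¹ * f⁻¹ * g := by group
        _ = f * (g⁻¹ * c) * c⁻¹ * f⁻¹ * g := by rw [hc.inv_right.eq]
        _ = f * g⁻¹ * f⁻¹ * g := by group
    rw [h]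
    have h2 : g * f = k * (f * g) := by
      calc g * f = (k * k) * (g * f) := by rw [kk, one_mul]
        _ = k * (k * (g * f)) := by group
        _ = k * (f * g) := by rw [r2]
    -- f g⁻¹ f⁻¹ g = g⁻¹ k ... 
    have h3 : f * g⁻¹ = k * (g⁻¹ * f) := by
      calc f * g⁻¹ = g⁻¹ * (g * f) * g⁻¹ := by group
        _ = g⁻¹ * (k * (f * g)) * g⁻¹ := by rw [h2]
        _ = g⁻¹ * (k * f) := by group
        _ = (g⁻¹ * k) * f := by group
        _ = (k * g⁻¹) * f := by rw [kg.inv_right.eq]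
        _ = k * (g⁻¹ * f) := by group
    calc f * g⁻¹ * f⁻¹ * g = (k * (g⁻¹ * f)) * f⁻¹ * g := by rw [h3]
      _ = k := by group
  rw [t1, t2, t3, kk, one_mul] at hw
  rw [hw, one_mul] at r1 r2 r3
  exact ⟨r1.symm, r3.symm, r2⟩

end H78.DET

namespace H78.DET

open Subgroup

variable {G : Type*} [Group G]

/-- The three conjugation rules. -/
theorem conj_rules {a b : G} (hab : Commute (a * b) (b * a)) :
    b⁻¹ * a * b = a * ⁅a, b⁆ ∧ b * a * b⁻¹ = ⁅a, b⁆⁻¹ * a ∧
      b⁻¹ * ⁅a, b⁆ * b = a * ⁅a, b⁆ * a⁻¹ ∧ b * ⁅a, b⁆ * b⁻¹ = a⁻¹ * ⁅a, b⁆ * a := by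
  obtain ⟨g, hg⟩ : ∃ g : G, g = ⁅a, b⁆ := ⟨_, rfl⟩
  rw [← hg]
  have gg : g = (a * b) * (b * a)⁻¹ := by rw [hg, commutatorElement_def]; group
  have g1 : Commute g (a * b) := by
    rw [gg]; exact (Commute.refl _).mul_left hab.symm.inv_left
  have g2 : Commute g (b * a) := by
    rw [gg]; exact hab.mul_left (Commute.refl _).inv_left
  have pg : a * b = g * (b * a) := by rw [gg]; group
  have r3 : b⁻¹ * g * b = a * g * a⁻¹ := by
    calc b⁻¹ * g * b = b⁻¹ * (g * (b * a)) * a⁻¹ := by group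
      _ = b⁻¹ * ((b * a) * g) * a⁻¹ := by rw [g2.eq]
      _ = a * g * a⁻¹ := by group
  refine ⟨?_, ?_, r3, ?_⟩
  · calc b⁻¹ * a * b = b⁻¹ * (a * b) := by group
      _ = b⁻¹ * (g * (b * a)) := by rw [pg]
      _ = (b⁻¹ * g * b) * a := by group
      _ = (a * g * a⁻¹) * a := by rw [r3]
      _ = a * g := by group
  · calc b * a * b⁻¹ = g⁻¹ * (g * (b * a)) * b⁻¹ := by group
      _ = g⁻¹ * (a * b) * b⁻¹ := by rw [← pg]
      _ = g⁻¹ * a := by group
  · calc b * g * b⁻¹ = a⁻¹ * ((a * b) * g) * b⁻¹ := by group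
      _ = a⁻¹ * (g * (a * b)) * b⁻¹ := by rw [g1.eq]
      _ = a⁻¹ * g * a := by group

/-- `a` commutes with every conjugate of `[b,c]` by an element of `⟨b,c⟩`. -/
theorem comm_conj {a b c : G}
    (ha : Commute a ⁅b, c⁆) (hb : Commute b ⁅a, c⁆) (hc : Commute c ⁅a, b⁆)
    (hab : Commute (a * b) (b * a)) (hac : Commute (a * c) (c * a))
    (hbc : Commute (b * c) (c * b)) :
    ∀ x ∈ closure ({b, c} : Set G), Commute a (x * ⁅b, c⁆ * x⁻¹) := by
  obtain ⟨cef, ceg, cfg⟩ := comm_pairwise ha hb hc hab hac hbc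
  obtain ⟨b1, b2, b3, b4⟩ := conj_rules hab
  obtain ⟨c1, c2, c3, c4⟩ := conj_rules hac
  obtain ⟨e, he⟩ : ∃ e : G, e = ⁅b, c⁆ := ⟨_, rfl⟩
  obtain ⟨f, hf⟩ : ∃ f : G, f = ⁅a, c⁆ := ⟨_, rfl⟩
  obtain ⟨g, hg⟩ : ∃ g : G, g = ⁅a, b⁆ := ⟨_, rfl⟩
  rw [← he] at ha cef ceg
  rw [← hf] at hb cef cfg c1 c2 c3 c4
  rw [← hg] at hc ceg cfg b1 b2 b3 b4
  intro x hx
  rw [← he]
  -- the subgroup K = ⟨a,f,g⟩
  obtain ⟨K, hK⟩ : ∃ K : Subgroup G, K = closure ({a, f, g} : Set G) := ⟨_, rfl⟩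
  have aK : a ∈ K := by rw [hK]; exact subset_closure (by simp)
  have fK : f ∈ K := by rw [hK]; exact subset_closure (by simp)
  have gK : g ∈ K := by rw [hK]; exact subset_closure (by simp)
  have hKe : ∀ y ∈ K, Commute y e := by
    intro y hy
    rw [hK] at hy
    induction hy using closure_induction with
    | mem y hy =>
      rcases hy with rfl | rfl | rfl
      · exact ha
      · exact cef.symm
      · exact ceg.symm
    | one => exact Commute.one_left _
    | mul y z _ _ h1 h2 => exact h1.mul_left h2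
    | inv y _ h => exact h.inv_left
  -- K is stable under conjugation by b^{±1}, c^{±1}
  have stab : ∀ u : G, (u * a * u⁻¹ ∈ K) → (u * f * u⁻¹ ∈ K) → (u * g * u⁻¹ ∈ K) →
      ∀ y ∈ K, u * y * u⁻¹ ∈ K := by
    intro u h1 h2 h3 y hy
    rw [hK] at hy
    induction hy using closure_induction with
    | mem y hy =>
      rcases hy with rfl | rfl | rfl
      · exact h1
      · exact h2
      · exact h3
    | one => simp [K.one_mem]
    | mul y z _ _ h1 h2 =>
      have : u * (y * z) * u⁻¹ = (u * y * u⁻¹) * (u * z * u⁻¹) := by group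
      rw [this]; exact K.mul_mem h1 h2
    | inv y _ h =>
      have : u * y⁻¹ * u⁻¹ = (u * y * u⁻¹)⁻¹ := by group
      rw [this]; exact K.inv_mem h
  have fb : b * f * b⁻¹ = f := by rw [hb.eq]; group
  have fb' : b⁻¹ * f * b = f := by
    have := hb.inv_left.eq
    rw [this]; group
  have gc : c * g * c⁻¹ = g := by rw [hc.eq]; group
  have gc' : c⁻¹ * g * c = g := by
    have := hc.inv_left.eq
    rw [this]; group
  have sb : ∀ y ∈ K, b * y * b⁻¹ ∈ K := by
    apply stab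
    · rw [b2]; exact K.mul_mem (K.inv_mem gK) aK
    · rw [fb]; exact fK
    · rw [b4]; exact K.mul_mem (K.mul_mem (K.inv_mem aK) gK) aK
  have sb' : ∀ y ∈ K, b⁻¹ * y * b ∈ K := by
    have := stab b⁻¹
    simp only [inv_inv] at this
    apply this
    · rw [b1]; exact K.mul_mem aK gK
    · rw [fb']; exact fK
    · rw [b3]; exact K.mul_mem (K.mul_mem aK gK) (K.inv_mem aK)
  have sc : ∀ y ∈ K, c * y * c⁻¹ ∈ K := by
    apply stab
    · rw [c2]; exact K.mul_mem (K.inv_mem fK) aK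
    · rw [c4]; exact K.mul_mem (K.mul_mem (K.inv_mem aK) fK) aK
    · rw [gc]; exact gK
  have sc' : ∀ y ∈ K, c⁻¹ * y * c ∈ K := by
    have := stab c⁻¹
    simp only [inv_inv] at this
    apply this
    · rw [c1]; exact K.mul_mem aK fK
    · rw [c3]; exact K.mul_mem (K.mul_mem aK fK) (K.inv_mem aK)
    · rw [gc']; exact gK
  have sx : ∀ x ∈ closure ({b, c} : Set G), ∀ y ∈ K, x * y * x⁻¹ ∈ K ∧ x⁻¹ * y * x ∈ K := by
    intro x hx
    induction hx using closure_induction with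
    | mem x hx =>
      rcases hx with rfl | rfl
      · exact fun y hy => ⟨sb y hy, sb' y hy⟩
      · exact fun y hy => ⟨sc y hy, sc' y hy⟩
    | one => intro y hy; simpa using hy
    | mul x z _ _ h1 h2 =>
      intro y hy
      refine ⟨?_, ?_⟩
      · have : x * z * y * (x * z)⁻¹ = x * (z * y * z⁻¹) * x⁻¹ := by group
        rw [this]; exact (h1 _ (h2 _ hy).1).1
      · have : (x * z)⁻¹ * y * (x * z) = z⁻¹ * (x⁻¹ * y * x) * z := by group
        rw [this]; exact (h2 _ (h1 _ hy).2).2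
    | inv x _ h =>
      intro y hy
      refine ⟨?_, ?_⟩
      · have := (h y hy).2; simpa using this
      · have := (h y hy).1; simpa using this
  have h := hKe _ (sx x hx a aK).2
  -- x⁻¹ a x ⟂ e → a ⟂ x e x⁻¹
  have h2 : (x⁻¹ * a * x) * e = e * (x⁻¹ * a * x) := h.eq
  show a * (x * e * x⁻¹) = x * e * x⁻¹ * a
  calc a * (x * e * x⁻¹) = x * ((x⁻¹ * a * x) * e) * x⁻¹ := by group
    _ = x * (e * (x⁻¹ * a * x)) * x⁻¹ := by rw [h2]
    _ = x * e * x⁻¹ * a := by group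

/-- The commutator subgroup of `⟨b,c⟩` is generated by the conjugates of `[b,c]`. -/
theorem commutator_closure_pair (b c : G) :
    ⁅closure ({b, c} : Set G), closure ({b, c} : Set G)⁆ ≤
      closure {y | ∃ x ∈ closure ({b, c} : Set G), y = x * ⁅b, c⁆ * x⁻¹} := by
  obtain ⟨H, hH⟩ : ∃ H : Subgroup G, H = closure ({b, c} : Set G) := ⟨_, rfl⟩
  rw [← hH]
  obtain ⟨L, hL⟩ : ∃ L : Subgroup G, L = closure {y | ∃ x ∈ H, y = x * ⁅b, c⁆ * x⁻¹} := ⟨_, rfl⟩
  rw [← hL]
  have norm : ∀ x ∈ H, ∀ y ∈ L, x * y * x⁻¹ ∈ L := by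
    intro x hx y hy
    rw [hL] at hy
    induction hy using closure_induction with
    | mem y hy =>
      obtain ⟨z, hz, rfl⟩ := hy
      rw [hL]
      refine subset_closure ⟨x * z, H.mul_mem hx hz, by group⟩
    | one => simp [L.one_mem]
    | mul y z _ _ h1 h2 =>
      have : x * (y * z) * x⁻¹ = (x * y * x⁻¹) * (x * z * x⁻¹) := by group
      rw [this]; exact L.mul_mem h1 h2
    | inv y _ h =>
      have : x * y⁻¹ * x⁻¹ = (x * y * x⁻¹)⁻¹ := by group
      rw [this]; exact L.inv_mem h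
  have base : ⁅b, c⁆ ∈ L := by
    rw [hL]; exact subset_closure ⟨1, H.one_mem, by simp⟩
  have bH : b ∈ H := by rw [hH]; exact subset_closure (by simp)
  have cH : c ∈ H := by rw [hH]; exact subset_closure (by simp)
  -- induction tool in the first variable
  have tool : ∀ z ∈ H, ⁅b, z⁆ ∈ L → ⁅c, z⁆ ∈ L → ∀ x ∈ H, ⁅x, z⁆ ∈ L := by
    intro z hz h1 h2 x hx
    have hx' := hx
    rw [hH] at hx'
    clear hx
    induction hx' using closure_induction with
    | mem x hxm =>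
      rcases hxm with rfl | rfl
      · exact h1
      · exact h2
    | one => simp [L.one_mem]
    | mul x y hx1 hy1 i1 i2 =>
      have hxH : x ∈ H := by rw [hH]; exact hx1
      have : ⁅x * y, z⁆ = (x * ⁅y, z⁆ * x⁻¹) * ⁅x, z⁆ := by
        simp only [commutatorElement_def]; group
      rw [this]; exact L.mul_mem (norm _ hxH _ i2) i1
    | inv x hx1 i =>
      have hxH : x ∈ H := by rw [hH]; exact hx1
      have : ⁅x⁻¹, z⁆ = x⁻¹ * (⁅x, z⁆)⁻¹ * x⁻¹⁻¹ := by
        simp only [commutatorElement_def]; group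
      rw [this]; exact norm _ (H.inv_mem hxH) _ (L.inv_mem i)
  have swap : ∀ x y : G, ⁅x, y⁆ ∈ L → ⁅y, x⁆ ∈ L := by
    intro x y h
    have : ⁅y, x⁆ = (⁅x, y⁆)⁻¹ := by simp only [commutatorElement_def]; group
    rw [this]; exact L.inv_mem h
  have hb : ∀ x ∈ H, ⁅x, b⁆ ∈ L := tool b bH (by simp [L.one_mem]) (swap _ _ base)
  have hc : ∀ x ∈ H, ⁅x, c⁆ ∈ L := tool c cH base (by simp [L.one_mem])
  rw [commutator_le]
  intro x hx y hy
  exact tool y hy (swap _ _ (hb y hy)) (swap _ _ (hc y hy)) x hx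

/-- **Module G.**  `a` commutes with the whole commutator subgroup of `⟨b,c⟩`. -/
theorem comm_commutator {a b c : G}
    (ha : Commute a ⁅b, c⁆) (hb : Commute b ⁅a, c⁆) (hc : Commute c ⁅a, b⁆)
    (hab : Commute (a * b) (b * a)) (hac : Commute (a * c) (c * a))
    (hbc : Commute (b * c) (c * b)) :
    ∀ x ∈ ⁅closure ({b, c} : Set G), closure ({b, c} : Set G)⁆, Commute a x := by
  intro x hx
  have h := commutator_closure_pair b c hx
  clear hx
  induction h using closure_induction with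
  | mem y hy =>
    obtain ⟨z, hz, rfl⟩ := hy
    exact comm_conj ha hb hc hab hac hbc z hz
  | one => exact Commute.one_right _
  | mul y z hy hz h1 h2 => exact h1.mul_right h2
  | inv y _ h => exact h.inv_right

end H78.DET
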